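import Mathlib

/-!
Global lifting for holomorphic families of operators between Frechet spaces: the answer is negative
on every open polydisk.
-/

open Set Topology Filter Metric Asymptotics
open scoped ENNReal

set_option maxHeartbeats 400000
set_option linter.unusedSectionVars false
set_option linter.unusedVariables false

namespace Pool.Agent.Results.MP_bc0aea_an.GlobalLifting

/-! ### the question -/

/-- Complex Frechet spaces: the uniform structure is that of the additive group, the topology is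
given by a family of seminorms, it is metrizable, Hausdorff and complete. -/
class IsFrechet (E : Type*) [AddCommGroup E] [Module ℂ E] [UniformSpace E] : Prop where
  uniformAddGroup : IsUniformAddGroup E
  polynormable : PolynormableSpace ℂ E
  metrizable : (uniformity E).IsCountablyGenerated
  separated : T2Space E
  complete : CompleteSpace E

/-- The open polydisk with center `a` and radii `r`. -/
def polydisk {n : ℕ} (a : Fin n → ℂ) (r : Fin n → ℝ) : Set (Fin n → ℂ) :=
  {z | ∀ j, ‖z j - a j‖ < r j}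

section question

variable {n : ℕ} {E F : Type*} [AddCommGroup E] [Module ℂ E] [UniformSpace E]
  [AddCommGroup F] [Module ℂ F] [UniformSpace F]

/-- Analytic maps from an open set `D` to the continuous linear operators: every orbit map is
holomorphic and the map is locally equicontinuous. -/
structure AnalyticFamily (D : Set (Fin n → ℂ)) (u : (Fin n → ℂ) → (E →L[ℂ] F)) : Prop where
  holomorphic : ∀ x : E, DifferentiableOn ℂ (fun z => u z x) D
  equicontinuous : ∀ z₀ ∈ D, ∃ V ∈ 𝓝 z₀, Equicontinuous (fun z : V => (u z : E → F))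

/-- The induced morphism of sheaves is onto: every germ of a holomorphic `F`-valued map can be
lifted. -/
def OntoOnGerms (D : Set (Fin n → ℂ)) (u : (Fin n → ℂ) → (E →L[ℂ] F)) : Prop :=
  ∀ z₀ ∈ D, ∀ W : Set (Fin n → ℂ), IsOpen W → z₀ ∈ W → W ⊆ D →
    ∀ g : (Fin n → ℂ) → F, DifferentiableOn ℂ g W →
      ∃ W' : Set (Fin n → ℂ), IsOpen W' ∧ z₀ ∈ W' ∧ W' ⊆ W ∧
        ∃ f : (Fin n → ℂ) → E, DifferentiableOn ℂ f W' ∧ ∀ z ∈ W', u z (f z) = g z

/-- The map on global sections over `D` is onto. -/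
def OntoOnSections (D : Set (Fin n → ℂ)) (u : (Fin n → ℂ) → (E →L[ℂ] F)) : Prop :=
  ∀ g : (Fin n → ℂ) → F, DifferentiableOn ℂ g D →
    ∃ f : (Fin n → ℂ) → E, DifferentiableOn ℂ f D ∧ ∀ z ∈ D, u z (f z) = g z

end question

/-! ### general facts on derivatives in topological vector spaces -/

section tvs

variable {X : Type*} [NormedAddCommGroup X] [NormedSpace ℂ X]
variable {E F : Type*} [AddCommGroup E] [Module ℂ E] [TopologicalSpace E]
  [AddCommGroup F] [Module ℂ F] [TopologicalSpace F]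

theorem fderiv_clm {f : X → E} {f' : X →L[ℂ] E} {x : X} (L : E →L[ℂ] F) (h : HasFDerivAt f f' x) :
    HasFDerivAt (fun z => L (f z)) (L.comp f') x := by
  rw [hasFDerivAt_iff_isLittleOTVS] at h ⊢
  have h1 : (fun x' => L (f x' - f x - f' (x' - x))) =O[ℂ; 𝓝 x] (fun x' => f x' - f x - f' (x' - x)) :=
    L.isBigOTVS_fun_comp
  refine (h1.trans_isLittleOTVS h).congr_left ?_
  intro y
  simp

theorem diffAt_clm {f : X → E} {x : X} (L : E →L[ℂ] F) (h : DifferentiableAt ℂ f x) :
    DifferentiableAt ℂ (fun z => L (f z)) x := by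
  obtain ⟨f', hf'⟩ := h
  exact ⟨_, fderiv_clm L hf'⟩

theorem diffAt_prod [ContinuousSMul ℂ E] [ContinuousSMul ℂ F] {f : X → E} {g : X → F} {x : X}
    (hf : DifferentiableAt ℂ f x) (hg : DifferentiableAt ℂ g x) :
    DifferentiableAt ℂ (fun z => (f z, g z)) x := by
  obtain ⟨f', hf'⟩ := hf
  obtain ⟨g', hg'⟩ := hg
  refine ⟨f'.prod g', ?_⟩
  rw [hasFDerivAt_iff_isLittleOTVS] at hf' hg' ⊢
  exact (hf'.prodMk hg').congr_left (fun y => rfl)

end tvs

/-! ### the space -/

abbrev Pt : Type := closedBall (0 : ℂ) (1 / 4)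

abbrev Idx : Type := List Pt

abbrev A : Type := lp (fun _ : Idx => ℂ) ∞

/-- the weights -/
noncomputable def W : ℕ → ℕ → ℝ
  | 0, _ => 1
  | k + 1, n => 2 ^ (16 ^ (n + k))

theorem W_zero (n : ℕ) : W 0 n = 1 := rfl

theorem one_le_W (k n : ℕ) : 1 ≤ W k n := by
  cases k with
  | zero => exact le_rfl
  | succ k => exact one_le_pow₀ one_le_two

theorem W_pos (k n : ℕ) : 0 < W k n := lt_of_lt_of_le one_pos (one_le_W k n)

theorem W_succ (k n : ℕ) : W k (n + 1) ≤ W (k + 1) n := by
  cases k with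
  | zero => exact one_le_W 1 n
  | succ k =>
    show (2 : ℝ) ^ (16 ^ (n + 1 + k)) ≤ 2 ^ (16 ^ (n + (k + 1)))
    have : n + 1 + k = n + (k + 1) := by omega
    rw [this]

/-- the space of families with all weighted suprema finite, as a closed subspace of a countable
product of Banach spaces -/
def G : Submodule ℂ (ℕ → A) where
  carrier := {x | ∀ k s, x k s = W k s.length * x 0 s}
  add_mem' := by
    intro x y hx hy k s
    simp only [Pi.add_apply, lp.coeFn_add, hx k s, hy k s]
    ring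
  zero_mem' := by
    intro k s
    simp
  smul_mem' := by
    intro c x hx k s
    simp only [Pi.smul_apply, lp.coeFn_smul, hx k s, smul_eq_mul]
    ring

/-- coordinates -/
def co (x : G) (s : Idx) : ℂ := (x : ℕ → A) 0 s

theorem co_k (x : G) (k : ℕ) (s : Idx) : (x : ℕ → A) k s = W k s.length * co x s := x.2 k s

theorem G_ext {x y : G} (h : ∀ s, co x s = co y s) : x = y := by
  apply Subtype.ext
  funext k
  apply lp.ext
  funext s
  rw [co_k, co_k, h]

theorem isClosed_G : IsClosed (G : Set (ℕ → A)) := by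
  have : (G : Set (ℕ → A)) = ⋂ k : ℕ, ⋂ s : Idx,
      {x : ℕ → A | (x k s : ℂ) = (W k s.length : ℂ) * (x 0 s : ℂ)} := by
    ext x
    simp only [mem_iInter]
    exact Iff.rfl
  rw [this]
  refine isClosed_iInter fun k => isClosed_iInter fun s => ?_
  have h1 : ∀ j : ℕ, Continuous fun x : ℕ → A => x j s := fun j =>
    (lp.evalCLM ℂ (fun _ : Idx => ℂ) ∞ s).continuous.comp (continuous_apply j)
  exact isClosed_eq (h1 k) (continuous_const.mul (h1 0))

instance : CompleteSpace G := isClosed_G.completeSpace_coe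

instance : IsUniformAddGroup G := inferInstanceAs (IsUniformAddGroup G.toAddSubgroup)

instance : (uniformity G).IsCountablyGenerated := by
  rw [uniformity_subtype]
  infer_instance

theorem frechet_G : IsFrechet G where
  uniformAddGroup := inferInstance
  polynormable := inferInstance
  metrizable := inferInstance
  separated := inferInstance
  complete := inferInstance

theorem frechet_GG : IsFrechet (G × G) where
  uniformAddGroup := inferInstance
  polynormable := inferInstance
  metrizable := inferInstance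
  separated := inferInstance
  complete := inferInstance

/-- the components -/
noncomputable def kL (k : ℕ) : G →L[ℂ] A := (ContinuousLinearMap.proj k).comp G.subtypeL

theorem kL_apply (k : ℕ) (x : G) (s : Idx) : kL k x s = W k s.length * co x s := co_k x k s

theorem kL_zero (x : G) (s : Idx) : kL 0 x s = co x s := rfl

theorem diffAt_G {X : Type*} [NormedAddCommGroup X] [NormedSpace ℂ X] {f : X → G} {x : X}
    (h : ∀ k, DifferentiableAt ℂ (fun z => kL k (f z)) x) : DifferentiableAt ℂ f x := by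
  choose D hD using h
  have hmem : ∀ v : X, (ContinuousLinearMap.pi D : X →L[ℂ] (ℕ → A)) v ∈ G := by
    intro v k s
    show (D k v : A) s = W k s.length * (D 0 v : A) s
    have h1 : HasFDerivAt (fun z => (kL k (f z) : A) s)
        ((lp.evalCLM ℂ (fun _ : Idx => ℂ) ∞ s).comp (D k)) x :=
      fderiv_clm (lp.evalCLM ℂ (fun _ : Idx => ℂ) ∞ s) (hD k)
    have h2 : HasFDerivAt (fun z => (W k s.length : ℂ) * (kL 0 (f z) : A) s)
        ((W k s.length : ℂ) • (lp.evalCLM ℂ (fun _ : Idx => ℂ) ∞ s).comp (D 0)) x :=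
      (fderiv_clm (lp.evalCLM ℂ (fun _ : Idx => ℂ) ∞ s) (hD 0)).const_smul (W k s.length : ℂ)
    have h3 : (fun z => (kL k (f z) : A) s) = fun z => (W k s.length : ℂ) * (kL 0 (f z) : A) s := by
      funext z
      rw [kL_apply, kL_zero]
    rw [h3] at h1
    have h4 := h1.unique h2
    exact congrArg (fun T => T v) h4
  refine ⟨(ContinuousLinearMap.pi D).codRestrict G hmem, ?_⟩
  rw [hasFDerivAt_iff_isLittleOTVS]
  have hind : Topology.IsInducing (G.subtypeL : G →L[ℂ] (ℕ → A)) := Topology.IsInducing.subtypeVal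
  refine ((G.subtypeL).isThetaTVS_comp (𝕜 := ℂ) (l := 𝓝 x)
    (f := fun x' => f x' - f x - (ContinuousLinearMap.pi D).codRestrict G hmem (x' - x))
    hind).2.trans_isLittleOTVS ?_
  rw [isLittleOTVS_pi]
  intro k
  have := hD k
  rw [hasFDerivAt_iff_isLittleOTVS] at this
  exact this

/-- elements of `G` from families of coordinates -/
noncomputable def mkG (y : Idx → ℂ) (h : ∀ k, ∃ C : ℝ, ∀ s, W k s.length * ‖y s‖ ≤ C) : G :=
  ⟨fun k => ⟨fun s => W k s.length * y s, memℓp_infty (by
    obtain ⟨C, hC⟩ := h k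
    refine ⟨C, ?_⟩
    rintro _ ⟨s, rfl⟩
    show ‖(W k s.length : ℂ) * y s‖ ≤ C
    rw [norm_mul, Complex.norm_real, Real.norm_eq_abs, abs_of_pos (W_pos _ _)]
    exact hC s)⟩, by
    intro k s
    show (W k s.length : ℂ) * y s = W k s.length * ((W 0 s.length : ℂ) * y s)
    rw [W_zero, Complex.ofReal_one, one_mul]⟩

theorem co_mkG (y : Idx → ℂ) (h : ∀ k, ∃ C : ℝ, ∀ s, W k s.length * ‖y s‖ ≤ C) (s : Idx) :
    co (mkG y h) s = y s := by
  show (W 0 s.length : ℂ) * y s = y s
  rw [W_zero, Complex.ofReal_one, one_mul]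

theorem bd (x : G) (k : ℕ) (s : Idx) : W k s.length * ‖co x s‖ ≤ ‖kL k x‖ := by
  have h := lp.norm_apply_le_norm (E := fun _ : Idx => ℂ) (by simp) (kL k x) s
  rwa [kL_apply, norm_mul, Complex.norm_real, Real.norm_eq_abs, abs_of_pos (W_pos _ _)] at h

theorem norm_kL_le (x : G) (k : ℕ) {C : ℝ} (hC : 0 ≤ C)
    (h : ∀ s, W k s.length * ‖co x s‖ ≤ C) : ‖kL k x‖ ≤ C := by
  apply lp.norm_le_of_forall_le hC
  intro s
  rw [kL_apply, norm_mul, Complex.norm_real, Real.norm_eq_abs, abs_of_pos (W_pos _ _)]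
  exact h s

theorem cont_of_bound (f : G →ₗ[ℂ] G)
    (h : ∀ k, ∃ k' : ℕ, ∃ C : ℝ, ∀ x, ‖kL k (f x)‖ ≤ C * ‖kL k' x‖) : Continuous f := by
  rw [Topology.IsInducing.subtypeVal.continuous_iff, continuous_pi_iff]
  intro k
  obtain ⟨k', C, hC⟩ := h k
  have h1 : Continuous ((kL k).toLinearMap.comp f).toAddMonoidHom := by
    apply continuous_of_continuousAt_zero
    show Tendsto (fun x => kL k (f x)) (𝓝 0) (𝓝 (kL k (f 0)))
    rw [map_zero, map_zero]
    apply squeeze_zero_norm hC
    have h2 : Tendsto (fun x : G => C * ‖kL k' x‖) (𝓝 0) (𝓝 (C * ‖kL k' 0‖)) :=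
      (((kL k').continuous.norm).const_mul C).tendsto 0
    simpa using h2
  exact h1

/-- the shift along the tree -/
def tl (y : Idx → ℂ) : Idx → ℂ
  | [] => 0
  | _ :: s => y s

theorem tl_bound (x : G) (k : ℕ) (s : Idx) :
    W k s.length * ‖tl (co x) s‖ ≤ ‖kL (k + 1) x‖ := by
  cases s with
  | nil => simp [tl]
  | cons p s =>
    refine le_trans ?_ (bd x (k + 1) s)
    exact mul_le_mul_of_nonneg_right (W_succ k s.length) (norm_nonneg _)

noncomputable def Sl : G →ₗ[ℂ] G where
  toFun x := mkG (tl (co x)) (fun k => ⟨_, tl_bound x k⟩)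
  map_add' x y := by
    apply G_ext
    intro s
    show co (mkG _ _) s = co (mkG _ _) s + co (mkG _ _) s
    rw [co_mkG, co_mkG, co_mkG]
    cases s with
    | nil => simp [tl]
    | cons p s => rfl
  map_smul' c x := by
    apply G_ext
    intro s
    show co (mkG _ _) s = c * co (mkG _ _) s
    rw [co_mkG, co_mkG]
    cases s with
    | nil => simp [tl]
    | cons p s => rfl

theorem co_Sl (x : G) (s : Idx) : co (Sl x) s = tl (co x) s :=
  co_mkG (tl (co x)) (fun k => ⟨_, tl_bound x k⟩) s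

noncomputable def S : G →L[ℂ] G where
  toLinearMap := Sl
  cont := cont_of_bound Sl (fun k => ⟨k + 1, 1, fun x => by
    rw [one_mul]
    apply norm_kL_le _ _ (norm_nonneg _)
    intro s
    rw [co_Sl]
    exact tl_bound x k s⟩)

theorem co_S (x : G) (s : Idx) : co (S x) s = tl (co x) s := co_Sl x s

theorem amul_bound (a : A) (x : G) (k : ℕ) (s : Idx) :
    W k s.length * ‖(a s : ℂ) * co x s‖ ≤ ‖a‖ * ‖kL k x‖ := by
  have h1 := lp.norm_apply_le_norm (E := fun _ : Idx => ℂ) (by simp) a s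
  have h2 := bd x k s
  rw [norm_mul]
  calc W k s.length * (‖a s‖ * ‖co x s‖) = ‖a s‖ * (W k s.length * ‖co x s‖) := by ring
    _ ≤ ‖a‖ * ‖kL k x‖ := mul_le_mul h1 h2 (by have := W_pos k s.length; positivity) (norm_nonneg _)

noncomputable def amull (a : A) : G →ₗ[ℂ] G where
  toFun x := mkG (fun s => (a s : ℂ) * co x s) (fun k => ⟨_, amul_bound a x k⟩)
  map_add' x y := by
    apply G_ext
    intro s
    show co (mkG _ _) s = co (mkG _ _) s + co (mkG _ _) s
    rw [co_mkG, co_mkG, co_mkG]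
    show (a s : ℂ) * (co x s + co y s) = _
    ring
  map_smul' c x := by
    apply G_ext
    intro s
    show co (mkG _ _) s = c * co (mkG _ _) s
    rw [co_mkG, co_mkG]
    show (a s : ℂ) * (c * co x s) = _
    ring

theorem co_amull (a : A) (x : G) (s : Idx) : co (amull a x) s = a s * co x s :=
  co_mkG (fun s => (a s : ℂ) * co x s) (fun k => ⟨_, amul_bound a x k⟩) s

/-- multiplication by a bounded family -/
noncomputable def amul (a : A) : G →L[ℂ] G where
  toLinearMap := amull a
  cont := cont_of_bound (amull a) (fun k => ⟨k, ‖a‖, fun x => by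
    apply norm_kL_le _ _ (by positivity)
    intro s
    rw [co_amull]
    exact amul_bound a x k s⟩)

theorem co_amul (a : A) (x : G) (s : Idx) : co (amul a x) s = a s * co x s := co_amull a x s

theorem kL_amul (a : A) (x : G) (k : ℕ) : kL k (amul a x) = a * kL k x := by
  apply lp.ext
  funext s
  rw [kL_apply, co_amul, lp.infty_coeFn_mul, Pi.mul_apply, kL_apply]
  ring

theorem diffAt_amul {X : Type*} [NormedAddCommGroup X] [NormedSpace ℂ X] {a : X → A} {f : X → G}
    {x : X} (ha : DifferentiableAt ℂ a x) (hf : DifferentiableAt ℂ f x) :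
    DifferentiableAt ℂ (fun z => amul (a z) (f z)) x := by
  apply diffAt_G
  intro k
  simp only [kL_amul]
  exact ha.mul (diffAt_clm (kL k) hf)

/-! ### the family of operators -/

/-- the two centers, alternating -/
noncomputable def cen (n : ℕ) : ℂ := if n % 2 = 0 then 0 else 1

theorem cen_congr {m n : ℕ} (h : m % 2 = n % 2) : cen m = cen n := by
  unfold cen
  rw [h]

theorem norm_cen_le (n : ℕ) : ‖cen n‖ ≤ 1 := by
  unfold cen
  split_ifs <;> simp

theorem norm_cen_sub (n : ℕ) : ‖cen n - cen (n + 1)‖ = 1 := by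
  unfold cen
  rcases Nat.mod_two_eq_zero_or_one n with h | h
  · have h' : (n + 1) % 2 = 1 := by omega
    simp [h, h']
  · have h' : (n + 1) % 2 = 0 := by omega
    simp [h, h']

/-- the points -/
noncomputable def pt : Idx → ℂ
  | [] => 0
  | p :: s => cen (s.length + 1) + p

theorem pt_mem (s : Idx) : ‖pt s - cen s.length‖ ≤ 1 / 4 := by
  cases s with
  | nil => simp [pt, cen]
  | cons p s =>
    have hp := p.2
    rw [mem_closedBall, dist_zero_right] at hp
    simpa [pt] using hp

theorem norm_pt_le (s : Idx) : ‖pt s‖ ≤ 2 := by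
  have h1 := pt_mem s
  have h2 := norm_cen_le s.length
  have h3 : pt s = (pt s - cen s.length) + cen s.length := by ring
  rw [h3]
  refine (norm_add_le _ _).trans ?_
  linarith

noncomputable def Qa : A := ⟨pt, memℓp_infty ⟨2, by
  rintro _ ⟨s, rfl⟩
  exact norm_pt_le s⟩⟩

theorem Qa_apply (s : Idx) : (Qa : A) s = pt s := rfl

/-- the family of operators -/
noncomputable def u (ζ : ℂ) : G × G →L[ℂ] G :=
  ContinuousLinearMap.fst ℂ G G - S.comp (ContinuousLinearMap.fst ℂ G G)
    + ζ • ContinuousLinearMap.snd ℂ G G - (amul Qa).comp (ContinuousLinearMap.snd ℂ G G)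

theorem u_apply (ζ : ℂ) (h b : G) : u ζ (h, b) = h - S h + ζ • b - amul Qa b := rfl

theorem u_apply' (ζ : ℂ) (x : G × G) :
    u ζ x = ζ • x.2 + (x.1 - S x.1 - amul Qa x.2) := by
  have h1 : u ζ x = x.1 - S x.1 + ζ • x.2 - amul Qa x.2 := rfl
  rw [h1]
  abel

theorem co_u (ζ : ℂ) (h b : G) (s : Idx) :
    co (u ζ (h, b)) s = co h s - tl (co h) s + (ζ - pt s) * co b s := by
  have h1 : co (u ζ (h, b)) s = co h s - co (S h) s + ζ * co b s - co (amul Qa b) s := rfl
  rw [h1, co_S, co_amul, Qa_apply]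
  ring

/-- indicator of the indices with given parity of the length -/
noncomputable def Ea (e : ℕ) : A := ⟨fun s => if s.length % 2 = e % 2 then 1 else 0,
  memℓp_infty ⟨1, by
    rintro _ ⟨s, rfl⟩
    show ‖(if s.length % 2 = e % 2 then (1 : ℂ) else 0)‖ ≤ 1
    split_ifs <;> simp⟩⟩

theorem Ea_apply (e : ℕ) (s : Idx) :
    (Ea e : A) s = if s.length % 2 = e % 2 then (1 : ℂ) else 0 := rfl

noncomputable def den (e : ℕ) (ζ : ℂ) : A := Ea e + (1 - Ea e) * (ζ • (1 : A) - Qa)

theorem den_apply (e : ℕ) (ζ : ℂ) (s : Idx) :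
    (den e ζ : A) s = if s.length % 2 = e % 2 then (1 : ℂ) else ζ - pt s := by
  have h1 : (den e ζ : A) s = (Ea e : A) s + (1 - (Ea e : A) s) * (ζ * 1 - (Qa : A) s) := rfl
  rw [h1, Ea_apply, Qa_apply]
  split_ifs <;> ring

theorem isUnit_den {e : ℕ} {ζ : ℂ} (h : 1 / 4 < ‖ζ - cen (e + 1)‖) : IsUnit (den e ζ) := by
  set δ : ℝ := ‖ζ - cen (e + 1)‖ - 1 / 4 with hδ
  have hδ0 : 0 < δ := by linarith
  have hbad : ∀ s : Idx, s.length % 2 ≠ e % 2 → δ ≤ ‖ζ - pt s‖ := by
    intro s hs
    have h1 : cen s.length = cen (e + 1) := cen_congr (by omega)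
    have h2 := pt_mem s
    rw [h1] at h2
    have h3 : ζ - cen (e + 1) = (ζ - pt s) + (pt s - cen (e + 1)) := by ring
    have h4 := norm_add_le (ζ - pt s) (pt s - cen (e + 1))
    rw [← h3] at h4
    linarith
  let inv : A := ⟨fun s => if s.length % 2 = e % 2 then (1 : ℂ) else (ζ - pt s)⁻¹,
    memℓp_infty ⟨max 1 δ⁻¹, by
      rintro _ ⟨s, rfl⟩
      show ‖(if s.length % 2 = e % 2 then (1 : ℂ) else (ζ - pt s)⁻¹)‖ ≤ max 1 δ⁻¹
      split_ifs with hs
      · rw [norm_one]; exact le_max_left _ _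
      · rw [norm_inv]
        exact le_trans (inv_anti₀ hδ0 (hbad s hs)) (le_max_right _ _)⟩⟩
  have hinv : ∀ s, (inv : A) s = if s.length % 2 = e % 2 then (1 : ℂ) else (ζ - pt s)⁻¹ :=
    fun s => rfl
  have hmul : den e ζ * inv = 1 := by
    apply lp.ext
    funext s
    rw [lp.infty_coeFn_mul, Pi.mul_apply, den_apply, hinv]
    show _ = (1 : ℂ)
    split_ifs with hs
    · ring
    · have h0 : ζ - pt s ≠ 0 := by
        intro h0
        have := hbad s hs
        rw [h0, norm_zero] at this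
        linarith
      exact mul_inv_cancel₀ h0
  exact IsUnit.of_mul_eq_one _ hmul

theorem local_onto {X : Type*} [NormedAddCommGroup X] [NormedSpace ℂ X] (e : ℕ) {W' : Set X}
    {ζ : X → ℂ} (hζ : Differentiable ℂ ζ) {g : X → G} (hg : ∀ z ∈ W', DifferentiableAt ℂ g z)
    (hW : ∀ z ∈ W', 1 / 4 < ‖ζ z - cen (e + 1)‖) :
    ∃ f : X → G × G, (∀ z ∈ W', DifferentiableAt ℂ f z) ∧ ∀ z ∈ W', u (ζ z) (f z) = g z := by
  refine ⟨fun z => (amul (Ea e) (g z),
    amul ((1 - Ea e) * Ring.inverse (den e (ζ z))) ((ContinuousLinearMap.id ℂ G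
      + S.comp (amul (Ea e))) (g z))), ?_, ?_⟩
  · intro z hz
    have hden : Differentiable ℂ fun z => den e (ζ z) := by
      unfold den
      fun_prop
    apply diffAt_prod (diffAt_clm _ (hg z hz))
    apply diffAt_amul
    · apply DifferentiableAt.const_mul
      have h1 : DifferentiableAt ℂ (Ring.inverse : A → A) (den e (ζ z)) :=
        differentiableAt_inverse (isUnit_den (hW z hz))
      exact h1.comp z (hden z)
    · exact diffAt_clm _ (hg z hz)
  · intro z hz
    have hu := isUnit_den (hW z hz)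
    have hinv : ∀ s : Idx, (den e (ζ z) : A) s * (Ring.inverse (den e (ζ z)) : A) s = 1 := by
      intro s
      have h1 := Ring.mul_inverse_cancel _ hu
      have h2 := congrArg (fun a : A => (a : Idx → ℂ) s) h1
      exact h2
    apply G_ext
    intro s
    rw [co_u]
    have hb : co (amul ((1 - Ea e) * Ring.inverse (den e (ζ z))) ((ContinuousLinearMap.id ℂ G
        + S.comp (amul (Ea e))) (g z))) s = ((1 - (Ea e : A) s) * (Ring.inverse (den e (ζ z)) : A) s)
        * (co (g z) s + tl (co (amul (Ea e) (g z))) s) := by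
      rw [co_amul]
      have h3 : co ((ContinuousLinearMap.id ℂ G + S.comp (amul (Ea e))) (g z)) s
        = co (g z) s + co (S (amul (Ea e) (g z))) s := rfl
      rw [h3, co_S]
      rfl
    rw [hb, co_amul, Ea_apply]
    have hi := hinv s
    rw [den_apply] at hi
    split_ifs with hs
    · have ht : tl (co (amul (Ea e) (g z))) s = 0 := by
        cases s with
        | nil => rfl
        | cons p s =>
          show co (amul (Ea e) (g z)) s = 0
          rw [co_amul, Ea_apply, if_neg, zero_mul]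
          rw [List.length_cons] at hs
          omega
      rw [ht]
      ring
    · rw [if_neg hs] at hi
      have : (0 : ℂ) * co (g z) s - tl (co (amul (Ea e) (g z))) s + (ζ z - pt s) *
          ((1 - 0) * (Ring.inverse (den e (ζ z)) : A) s *
          (co (g z) s + tl (co (amul (Ea e) (g z))) s))
          = - tl (co (amul (Ea e) (g z))) s + ((ζ z - pt s) * (Ring.inverse (den e (ζ z)) : A) s)
            * (co (g z) s + tl (co (amul (Ea e) (g z))) s) := by ring
      rw [this, hi]
      ring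

theorem term_le (m N : ℕ) (hN : 3 ≤ N) :
    min (((5 : ℝ) / 4) ^ m / 4 ^ m) ((5 / 4) ^ m * 4 ^ m / 2 ^ (8 * N)) ≤ 1 / 2 ^ N / 2 / 2 ^ m := by
  rcases lt_or_ge m (2 * N) with h | h
  · refine (min_le_right _ _).trans ?_
    have e1 : ((5 : ℝ) / 4) ^ m * 4 ^ m = 5 ^ m := by
      rw [← mul_pow]; norm_num
    rw [e1, div_div, div_div, div_le_div_iff₀ (by positivity) (by positivity), one_mul]
    have e2 : (5 : ℝ) ^ m * (2 ^ N * (2 * 2 ^ m)) = 2 ^ N * (2 * 10 ^ m) := by
      have : (10 : ℝ) ^ m = 5 ^ m * 2 ^ m := by rw [← mul_pow]; norm_num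
      rw [this]; ring
    have e3 : (2 : ℝ) ^ (8 * N) = 2 ^ N * 128 ^ N := by
      rw [pow_mul, ← mul_pow]; norm_num
    rw [e2, e3]
    apply mul_le_mul_of_nonneg_left _ (by positivity)
    have h1 : (10 : ℝ) ^ (m + 1) ≤ 10 ^ (2 * N) := pow_le_pow_right₀ (by norm_num) h
    rw [pow_succ, pow_mul] at h1
    have h2 : ((10 : ℝ) ^ 2) ^ N ≤ 128 ^ N := pow_le_pow_left₀ (by norm_num) (by norm_num) N
    have h3 : (0 : ℝ) ≤ 10 ^ m := by positivity
    linarith
  · refine (min_le_left _ _).trans ?_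
    have e1 : ((5 : ℝ) / 4) ^ m / 4 ^ m = (5 / 8) ^ m / 2 ^ m := by
      rw [← div_pow, ← div_pow]; norm_num
    rw [e1]
    apply div_le_div_of_nonneg_right _ (by positivity)
    have h1 : ((5 : ℝ) / 8) ^ m ≤ (5 / 8) ^ (2 * N) :=
      pow_le_pow_of_le_one (by norm_num) (by norm_num) h
    refine h1.trans ?_
    rw [pow_mul, div_div, le_div_iff₀ (by positivity)]
    obtain ⟨M, rfl⟩ := Nat.exists_eq_add_of_le hN
    have e2 : (((5 : ℝ) / 8) ^ 2) ^ (3 + M) * (2 ^ (3 + M) * 2)
        = (25 / 32) ^ M * ((25 / 32) ^ 3 * 2) := by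
      rw [← mul_assoc, ← mul_pow, pow_add]
      norm_num
      ring
    rw [e2]
    have h3 : ((25 : ℝ) / 32) ^ M ≤ 1 := pow_le_one₀ (by norm_num) (by norm_num)
    have h4 : ((25 : ℝ) / 32) ^ 3 * 2 ≤ 1 := by norm_num
    have h5 : (0 : ℝ) ≤ (25 / 32) ^ M := by positivity
    calc ((25 : ℝ) / 32) ^ M * ((25 / 32) ^ 3 * 2) ≤ 1 * 1 := mul_le_mul h3 h4 (by norm_num) zero_le_one
      _ = 1 := one_mul 1

theorem transfer {f : ℂ → ℂ} (hf : DifferentiableOn ℂ f (ball 0 6)) {B : ℝ} (hB : 0 ≤ B)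
    (hb : ∀ z ∈ closedBall (0 : ℂ) 5, ‖f z‖ ≤ B) (n : ℕ) {N : ℕ} (hN : 3 ≤ N)
    (hs : ∀ z ∈ closedBall (cen (n + 1)) (1 / 4), ‖f z‖ ≤ B / 2 ^ (8 * N)) :
    ∀ z ∈ closedBall (cen n) (1 / 4), ‖f z‖ ≤ B / 2 ^ N := by
  intro z hz
  set c := cen (n + 1) with hc
  have hc1 : ‖c‖ ≤ 1 := norm_cen_le _
  have hsub : closedBall c 4 ⊆ closedBall 0 5 := by
    intro w hw
    rw [mem_closedBall, dist_eq_norm] at hw
    rw [mem_closedBall, dist_zero_right]
    have : w = (w - c) + c := by ring
    rw [this]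
    refine (norm_add_le _ _).trans ?_
    linarith
  have hsub2 : closedBall (0 : ℂ) 5 ⊆ ball 0 6 := closedBall_subset_ball (by norm_num)
  have hzc : ‖z - c‖ ≤ 5 / 4 := by
    rw [mem_closedBall, dist_eq_norm] at hz
    have h1 := norm_cen_sub n
    have : z - c = (z - cen n) + (cen n - c) := by ring
    rw [this]
    refine (norm_add_le _ _).trans ?_
    linarith
  have hd : ∀ R : ℝ, 0 < R → R ≤ 4 → DiffContOnCl ℂ f (ball c R) := by
    intro R hR hR4
    apply DifferentiableOn.diffContOnCl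
    rw [closure_ball c hR.ne']
    exact hf.mono ((closedBall_subset_closedBall hR4).trans (hsub.trans hsub2))
  have hsum := Complex.hasSum_taylorSeries_on_ball (f := f) (c := c) (r := 4)
    (hf.mono (ball_subset_closedBall.trans (hsub.trans hsub2))) (z := z) (by
      rw [mem_ball, dist_eq_norm]
      refine lt_of_le_of_lt hzc ?_
      norm_num)
  have hc4 : ∀ m, ‖iteratedDeriv m f c‖ ≤ m.factorial * B / 4 ^ m := fun m =>
    Complex.norm_iteratedDeriv_le_of_forall_mem_sphere_norm_le m (by norm_num)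
      (hd 4 (by norm_num) le_rfl) (fun w hw => hb w (hsub (sphere_subset_closedBall hw)))
  have hc14 : ∀ m, ‖iteratedDeriv m f c‖ ≤ m.factorial * (B / 2 ^ (8 * N)) / (1 / 4) ^ m := fun m =>
    Complex.norm_iteratedDeriv_le_of_forall_mem_sphere_norm_le m (by norm_num)
      (hd (1 / 4) (by norm_num) (by norm_num)) (fun w hw => hs w (sphere_subset_closedBall hw))
  have hterm : ∀ m : ℕ, ‖((m.factorial : ℂ))⁻¹ • (z - c) ^ m • iteratedDeriv m f c‖
      ≤ B / 2 ^ N / 2 / 2 ^ m := by
    intro m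
    rw [norm_smul, norm_smul, norm_inv, norm_pow, Complex.norm_natCast]
    have hfac : (0 : ℝ) < m.factorial := by exact_mod_cast m.factorial_pos
    have hp : ‖z - c‖ ^ m ≤ (5 / 4) ^ m := pow_le_pow_left₀ (norm_nonneg _) hzc m
    have h1 : (m.factorial : ℝ)⁻¹ * (‖z - c‖ ^ m * ‖iteratedDeriv m f c‖)
        ≤ B * ((5 / 4) ^ m / 4 ^ m) := by
      calc (m.factorial : ℝ)⁻¹ * (‖z - c‖ ^ m * ‖iteratedDeriv m f c‖)
          ≤ (m.factorial : ℝ)⁻¹ * ((5 / 4) ^ m * (m.factorial * B / 4 ^ m)) := by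
            apply mul_le_mul_of_nonneg_left _ (by positivity)
            exact mul_le_mul hp (hc4 m) (norm_nonneg _) (by positivity)
        _ = B * ((5 / 4) ^ m / 4 ^ m) := by
            field_simp
    have h2 : (m.factorial : ℝ)⁻¹ * (‖z - c‖ ^ m * ‖iteratedDeriv m f c‖)
        ≤ B * ((5 / 4) ^ m * 4 ^ m / 2 ^ (8 * N)) := by
      calc (m.factorial : ℝ)⁻¹ * (‖z - c‖ ^ m * ‖iteratedDeriv m f c‖)
          ≤ (m.factorial : ℝ)⁻¹ * ((5 / 4) ^ m * (m.factorial * (B / 2 ^ (8 * N)) / (1 / 4) ^ m)) := by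
            apply mul_le_mul_of_nonneg_left _ (by positivity)
            exact mul_le_mul hp (hc14 m) (norm_nonneg _) (by positivity)
        _ = B * ((5 / 4) ^ m * 4 ^ m / 2 ^ (8 * N)) := by
            have : ((1 : ℝ) / 4) ^ m = 1 / 4 ^ m := by rw [div_pow, one_pow]
            rw [this]
            field_simp
    have h3 := le_min h1 h2
    rw [← mul_min_of_nonneg _ _ hB] at h3
    refine h3.trans ?_
    calc B * min ((5 / 4) ^ m / 4 ^ m) ((5 / 4) ^ m * 4 ^ m / 2 ^ (8 * N))
        ≤ B * (1 / 2 ^ N / 2 / 2 ^ m) := mul_le_mul_of_nonneg_left (term_le m N hN) hB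
      _ = B / 2 ^ N / 2 / 2 ^ m := by ring
  rw [← hsum.tsum_eq]
  exact tsum_of_norm_bounded (hasSum_geometric_two' (B / 2 ^ N)) hterm

theorem rigid {φ : Idx → ℂ → ℂ} (hd : ∀ s, DifferentiableOn ℂ (φ s) (ball 0 6)) {C : ℝ}
    (hb : ∀ s : Idx, ∀ z ∈ closedBall (0 : ℂ) 5, 2 ^ (16 ^ s.length) * ‖φ s z‖ ≤ C)
    (hc : ∀ (p : Pt) (s : Idx),
      φ (p :: s) (cen (s.length + 1) + p) = φ s (cen (s.length + 1) + p)) :
    φ [] 0 = 0 := by
  have hC : 0 ≤ C := le_trans (by positivity) (hb [] 0 (mem_closedBall_self (by norm_num)))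
  have hb1 : ∀ s : Idx, ∀ z ∈ closedBall (0 : ℂ) 5, ‖φ s z‖ ≤ C := by
    intro s z hz
    refine le_trans ?_ (hb s z hz)
    have : (1 : ℝ) ≤ 2 ^ (16 ^ s.length) := one_le_pow₀ one_le_two
    nlinarith [norm_nonneg (φ s z)]
  have hsub : ∀ n, closedBall (cen n) (1 / 4) ⊆ closedBall (0 : ℂ) 5 := by
    intro n w hw
    rw [mem_closedBall, dist_eq_norm] at hw
    rw [mem_closedBall, dist_zero_right]
    have h1 := norm_cen_le n
    have : w = (w - cen n) + cen n := by ring
    rw [this]
    refine (norm_add_le _ _).trans ?_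
    linarith
  -- iteration
  have key : ∀ m N n : ℕ, 3 ≤ N →
      (∀ t : Idx, t.length = n + m → ∀ z ∈ closedBall (cen (n + m)) (1 / 4),
        ‖φ t z‖ ≤ C / 2 ^ (8 ^ m * N)) →
      ∀ s : Idx, s.length = n → ∀ z ∈ closedBall (cen n) (1 / 4), ‖φ s z‖ ≤ C / 2 ^ N := by
    intro m
    induction m with
    | zero =>
      intro N n _ h s hs
      simpa using h s (by simpa using hs)
    | succ m ih =>
      intro N n hN h s hs
      have h1 := ih (8 * N) (n + 1) (by omega) (by
        intro t ht z hz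
        have e1 : n + 1 + m = n + (m + 1) := by omega
        rw [e1] at ht hz
        have e2 : 8 ^ m * (8 * N) = 8 ^ (m + 1) * N := by ring
        rw [e2]
        exact h t ht z hz)
      apply transfer (hd s) hC (hb1 s) n hN
      intro z hz
      rw [mem_closedBall, dist_eq_norm] at hz
      have hp : z - cen (n + 1) ∈ closedBall (0 : ℂ) (1 / 4) := by
        rw [mem_closedBall, dist_zero_right]; exact hz
      have h2 := hc ⟨z - cen (n + 1), hp⟩ s
      have e3 : cen (s.length + 1) + ((⟨z - cen (n + 1), hp⟩ : Pt) : ℂ) = z := by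
        rw [hs]
        show cen (n + 1) + (z - cen (n + 1)) = z
        ring
      rw [e3] at h2
      rw [← h2]
      apply h1 _ (by rw [List.length_cons, hs])
      rw [mem_closedBall, dist_eq_norm]
      exact hz
  have hall : ∀ N : ℕ, 3 ≤ N → ‖φ [] 0‖ ≤ C / 2 ^ N := by
    intro N hN
    apply key N N 0 hN _ [] rfl
    · rw [mem_closedBall, dist_eq_norm]
      simp [cen]
    · intro t ht z hz
      have h1 := hb t z (hsub _ hz)
      rw [ht, zero_add] at h1
      have h2 : 8 ^ N * N ≤ 16 ^ N := by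
        have : (16 : ℕ) ^ N = 8 ^ N * 2 ^ N := by rw [← mul_pow]; norm_num
        rw [this]
        exact Nat.mul_le_mul_left _ (Nat.lt_two_pow_self).le
      have h3 : (2 : ℝ) ^ (8 ^ N * N) ≤ 2 ^ (16 ^ N) := pow_le_pow_right₀ one_le_two h2
      rw [le_div_iff₀ (by positivity), mul_comm]
      refine le_trans ?_ h1
      exact mul_le_mul_of_nonneg_right h3 (norm_nonneg _)
  have hlim : Tendsto (fun N : ℕ => C / 2 ^ N) atTop (𝓝 0) := by
    have h1 : Tendsto (fun N : ℕ => C * (1 / 2 : ℝ) ^ N) atTop (𝓝 (C * 0)) :=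
      (tendsto_pow_atTop_nhds_zero_of_lt_one (by norm_num) (by norm_num)).const_mul C
    rw [mul_zero] at h1
    refine h1.congr (fun N => ?_)
    rw [one_div, inv_pow, div_eq_mul_inv]
  have h0 : ‖φ [] 0‖ ≤ 0 :=
    ge_of_tendsto hlim (eventually_atTop.2 ⟨3, fun N hN => hall N hN⟩)
  exact norm_eq_zero.1 (le_antisymm h0 (norm_nonneg _))

/-! ### the final result -/

/-- the target without global preimage -/
noncomputable def e0 : G := mkG (fun s => if s = [] then 1 else 0) (fun k => ⟨W k 0, fun s => by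
  by_cases hs : s = []
  · rw [if_pos hs, hs, norm_one, mul_one]
    exact le_rfl
  · rw [if_neg hs, norm_zero, mul_zero]
    exact (W_pos _ _).le⟩)

theorem co_e0 (s : Idx) : co e0 s = if s = [] then 1 else 0 := co_mkG _ _ s

theorem continuous_u : Continuous fun p : (G × G) × ℂ => u p.2 p.1 := by
  have : (fun p : (G × G) × ℂ => u p.2 p.1) =
      fun p => p.1.1 - S p.1.1 + p.2 • p.1.2 - amul Qa p.1.2 := by
    funext p
    exact u_apply p.2 p.1.1 p.1.2
  rw [this]
  have h1 : Continuous fun p : (G × G) × ℂ => p.1.1 := continuous_fst.fst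
  have h2 : Continuous fun p : (G × G) × ℂ => p.1.2 := continuous_fst.snd
  exact ((h1.sub (S.continuous.comp h1)).add (continuous_snd.smul h2)).sub
    ((amul Qa).continuous.comp h2)

theorem equicont {X : Type*} [TopologicalSpace X] (V : Set X) (ζ : X → ℂ)
    (hV : ∀ z ∈ V, ζ z ∈ closedBall (0 : ℂ) 6) :
    Equicontinuous (fun z : V => (u (ζ z) : G × G → G)) := by
  apply equicontinuous_of_equicontinuousAt_zero (F := fun z : V => u (ζ z))
  intro N hN
  rw [uniformity_eq_comap_nhds_zero] at hN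
  obtain ⟨M, hM, hMN⟩ := hN
  have h1 : ∀ᶠ x in 𝓝 (0 : G × G), ∀ c ∈ closedBall (0 : ℂ) 6, u c x ∈ M := by
    apply (isCompact_closedBall (0 : ℂ) 6).eventually_forall_of_forall_eventually
    intro c _
    have h2 : Tendsto (fun p : (G × G) × ℂ => u p.2 p.1) (𝓝 (0, c)) (𝓝 0) := by
      have := continuous_u.tendsto ((0 : G × G), c)
      simpa using this
    exact h2 hM
  filter_upwards [h1] with x hx z
  apply hMN
  show u (ζ z) x - u (ζ z) 0 ∈ M
  rw [map_zero, sub_zero]
  exact hx _ (hV z z.2)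

theorem isOpen_polydisk {n : ℕ} (a : Fin n → ℂ) (r : Fin n → ℝ) : IsOpen (polydisk a r) := by
  have : polydisk a r = ⋂ j, {z : Fin n → ℂ | ‖z j - a j‖ < r j} := by
    ext z
    simp [polydisk]
  rw [this]
  refine isOpen_iInter_of_finite fun j => ?_
  exact isOpen_lt (by fun_prop) continuous_const

/-- For every `n ≥ 1` and every open polydisk in `ℂ^n` there is an analytic family of operators
between Frechet spaces which is onto on germs but not onto on global sections. -/
theorem result (n : ℕ) (hn : 0 < n) (a : Fin n → ℂ) (r : Fin n → ℝ) (hr : ∀ j, 0 < r j) :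
    ∃ (E F : Type) (_ : AddCommGroup E) (_ : Module ℂ E) (_ : UniformSpace E)
      (_ : AddCommGroup F) (_ : Module ℂ F) (_ : UniformSpace F),
      IsFrechet E ∧ IsFrechet F ∧ ∃ u : (Fin n → ℂ) → (E →L[ℂ] F),
        AnalyticFamily (polydisk a r) u ∧ OntoOnGerms (polydisk a r) u ∧
          ¬ OntoOnSections (polydisk a r) u := by
  set i0 : Fin n := ⟨0, hn⟩ with hi0
  set ζ : (Fin n → ℂ) → ℂ := fun z => (6 / r i0 : ℝ) * (z i0 - a i0) with hζ
  have hr0 : 0 < r i0 := hr i0
  have hζd : Differentiable ℂ ζ := by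
    rw [hζ]
    fun_prop
  have hζD : ∀ z ∈ polydisk a r, ‖ζ z‖ < 6 := by
    intro z hz
    have h1 := hz i0
    rw [hζ]
    show ‖((6 / r i0 : ℝ) : ℂ) * (z i0 - a i0)‖ < 6
    rw [norm_mul, Complex.norm_real, Real.norm_eq_abs, abs_of_pos (by positivity)]
    calc 6 / r i0 * ‖z i0 - a i0‖ < 6 / r i0 * r i0 := by
          apply mul_lt_mul_of_pos_left h1 (by positivity)
      _ = 6 := by field_simp
  have hopen := isOpen_polydisk a r
  refine ⟨G × G, G, inferInstance, inferInstance, inferInstance, inferInstance, inferInstance,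
    inferInstance, frechet_GG, frechet_G, fun z => u (ζ z), ⟨?_, ?_⟩, ?_, ?_⟩
  · -- holomorphic
    intro x z hz
    apply DifferentiableAt.differentiableWithinAt
    have h1 : (fun z => u (ζ z) x) = fun z => amul (ζ z • (1 : A)) x.2 + (x.1 - S x.1 - amul Qa x.2) := by
      funext z
      have h2 : amul (ζ z • (1 : A)) x.2 = ζ z • x.2 := by
        apply G_ext
        intro s
        rw [co_amul]
        show (ζ z * 1) * co x.2 s = ζ z * co x.2 s
        ring
      rw [h2, ← u_apply' (ζ z) x]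
    rw [h1]
    apply diffAt_G
    intro k
    simp only [map_add, kL_amul]
    have h3 : DifferentiableAt ℂ (fun z => ζ z • (1 : A)) z := (hζd z).smul_const 1
    exact (h3.mul_const _).add_const _
  · -- locally equicontinuous
    intro z₀ hz₀
    refine ⟨polydisk a r, hopen.mem_nhds hz₀, equicont _ _ fun z hz => ?_⟩
    rw [mem_closedBall, dist_zero_right]
    exact (hζD z hz).le
  · -- onto on germs
    intro z₀ hz₀ W₀ hW₀ hzW _ g hg
    obtain ⟨e, he⟩ : ∃ e : ℕ, 1 / 4 < ‖ζ z₀ - cen (e + 1)‖ := by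
      by_contra hcon
      push Not at hcon
      have h0 := hcon 0
      have h1 := hcon 1
      have h2 : ‖cen 1 - cen (1 + 1)‖ = 1 := norm_cen_sub 1
      have h3 : cen 1 - cen (1 + 1) = (ζ z₀ - cen (1 + 1)) - (ζ z₀ - cen (0 + 1)) := by
        rw [zero_add]; ring
      rw [h3] at h2
      have h4 := norm_sub_le (ζ z₀ - cen (1 + 1)) (ζ z₀ - cen (0 + 1))
      rw [h2] at h4
      linarith
    set W₁ : Set (Fin n → ℂ) := W₀ ∩ {z | 1 / 4 < ‖ζ z - cen (e + 1)‖} with hW₁
    have hW₁o : IsOpen W₁ :=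
      hW₀.inter (isOpen_lt continuous_const ((hζd.continuous.sub continuous_const).norm))
    obtain ⟨f, hf, hfu⟩ := local_onto e hζd (W' := W₁) (g := g)
      (fun z hz => (hg z hz.1).differentiableAt (hW₀.mem_nhds hz.1)) (fun z hz => hz.2)
    exact ⟨W₁, hW₁o, ⟨hzW, he⟩, inter_subset_left, f,
      fun z hz => (hf z hz).differentiableWithinAt, hfu⟩
  · -- not onto on global sections
    intro hglob
    obtain ⟨f, hf, hfu⟩ := hglob (fun _ => e0) (differentiableOn_const _)
    set v : Fin n → ℂ := Pi.single i0 ((r i0 / 6 : ℝ) : ℂ) with hv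
    have hline : Differentiable ℂ fun x : ℂ => a + x • v := by fun_prop
    have hlD : ∀ x ∈ ball (0 : ℂ) 6, a + x • v ∈ polydisk a r := by
      intro x hx j
      rw [mem_ball, dist_zero_right] at hx
      show ‖(a + x • v) j - a j‖ < r j
      rw [Pi.add_apply, add_sub_cancel_left, Pi.smul_apply, smul_eq_mul, hv]
      by_cases hj : j = i0
      · subst hj
        rw [Pi.single_eq_same, norm_mul, Complex.norm_real, Real.norm_eq_abs,
          abs_of_pos (by positivity)]
        calc ‖x‖ * (r i0 / 6) < 6 * (r i0 / 6) := mul_lt_mul_of_pos_right hx (by positivity)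
          _ = r i0 := by ring
      · rw [Pi.single_eq_of_ne hj, mul_zero, norm_zero]
        exact hr j
    have hζl : ∀ x : ℂ, ζ (a + x • v) = x := by
      intro x
      show ((6 / r i0 : ℝ) : ℂ) * ((a + x • v) i0 - a i0) = x
      rw [Pi.add_apply, add_sub_cancel_left, Pi.smul_apply, smul_eq_mul, hv, Pi.single_eq_same]
      have : (r i0 : ℂ) ≠ 0 := by exact_mod_cast hr0.ne'
      push_cast
      field_simp
    have hfd : ∀ x ∈ ball (0 : ℂ) 6, DifferentiableAt ℂ f (a + x • v) := fun x hx =>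
      (hf _ (hlD x hx)).differentiableAt (hopen.mem_nhds (hlD x hx))
    have hk : ∀ k : ℕ, ∀ x ∈ ball (0 : ℂ) 6,
        DifferentiableAt ℂ (fun x : ℂ => kL k (f (a + x • v)).1) x := by
      intro k x hx
      have h1 : DifferentiableAt ℂ (fun z => kL k (f z).1) (a + x • v) :=
        diffAt_clm ((kL k).comp (ContinuousLinearMap.fst ℂ G G)) (hfd x hx)
      exact DifferentiableAt.comp (g := fun z => kL k (f z).1) x h1 (hline x)
    have hsub : closedBall (0 : ℂ) 5 ⊆ ball 0 6 := closedBall_subset_ball (by norm_num)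
    obtain ⟨C, hC⟩ : ∃ C, ∀ x ∈ closedBall (0 : ℂ) 5, ‖kL 1 (f (a + x • v)).1‖ ≤ C :=
      (isCompact_closedBall _ _).exists_bound_of_continuousOn
        (fun x hx => (hk 1 x (hsub hx)).continuousAt.continuousWithinAt)
    have heq : ∀ x ∈ ball (0 : ℂ) 6, ∀ s, co (f (a + x • v)).1 s - tl (co (f (a + x • v)).1) s
        + (x - pt s) * co (f (a + x • v)).2 s = if s = [] then 1 else 0 := by
      intro x hx s
      have h1 : u (ζ (a + x • v)) (f (a + x • v)) = e0 := hfu _ (hlD x hx)
      rw [hζl] at h1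
      rw [← co_e0, ← h1, ← co_u]
    have hpt : ∀ s, pt s ∈ ball (0 : ℂ) 6 := by
      intro s
      rw [mem_ball, dist_zero_right]
      exact lt_of_le_of_lt (norm_pt_le s) (by norm_num)
    have hzero : co (f (a + (0 : ℂ) • v)).1 [] = 0 := by
      apply rigid (φ := fun s x => co (f (a + x • v)).1 s) _ (C := C) _ _
      · intro s x hx
        apply DifferentiableAt.differentiableWithinAt
        exact diffAt_clm (lp.evalCLM ℂ (fun _ : Idx => ℂ) ∞ s) (hk 0 x hx)
      · intro s x hx
        exact (bd (f (a + x • v)).1 1 s).trans (hC x hx)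
      · intro p s
        have h1 := heq (pt (p :: s)) (hpt _) (p :: s)
        rw [sub_self, zero_mul, add_zero, if_neg (by simp)] at h1
        exact sub_eq_zero.1 h1
    have h1 := heq 0 (mem_ball_self (by norm_num)) []
    rw [hzero] at h1
    simp [tl, pt] at h1

end Pool.Agent.Results.MP_bc0aea_an.GlobalLifting
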